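import Pool.Agent.Lib.H10K2.Main

/-!
# The BMM trace and the lifting conjecture for the imprimitive reflection groups `G(de,e,n)`

`W = G(de,e,n)`, `n ≥ 2`, `de ≥ 2`: all imprimitive complex reflection groups, that is, the whole
infinite series of irreducible complex reflection groups apart from the symmetric and the cyclic
groups.  We prove that the generic Hecke algebra `H(W)` over the ring `R` of Laurent polynomials has
a BMM trace `τ` (conditions (1) and (2) included), and that the projection `B(W) → W` has a section
`s` with `s 1 = 1` and `τ (T_{s w}) = δ_{1 w}`; moreover the `T_{s w}` form an `R`-basis of `H(W)`.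
-/

namespace Pool.Agent.Results.MP_a45c20_al.LiftInfiniteSeries

open Pool.Agent.Lib.H10BMM (WG instWG BraidW instBraidW pr)
open Pool.Agent.Lib.H10K2

open Classical in
theorem result (d e n : ℕ) (hd : 0 < d) (he : 0 < e) (hn : 2 ≤ n) (_hde : 2 ≤ d * e) :
    ∃ τ : HeckeAlg d e n →ₗ[Rg d e n] Rg d e n, IsBMMTrace d e n τ ∧
      ∃ s : WG d e n → BraidW d e n, (∀ w, pr d e n (s w) = w) ∧ s 1 = 1 ∧
        (∀ w, tauT d e n τ (s w) = if w = 1 then 1 else 0) ∧
        ∃ b : Module.Basis (WG d e n) (Rg d e n) (HeckeAlg d e n), ∀ w, b w = TB d e n (s w) :=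
  main_stm hd he (by omega)

end Pool.Agent.Results.MP_a45c20_al.LiftInfiniteSeries
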